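import Pool.Agent.Work.MP_dfc2f8_pr.Main

/-!
For every constant `p` in `(0,1)`, every `b ≥ 1` and every constant `K`, with high probability
`γ_MB(G_{n,p}, b) > s_MB(G_{n,p}, b) + K`. In particular (`K = 0`) the two parameters are different
with high probability, for every `p` and every `b`.
-/

namespace Pool.Agent.Results.MP_dfc2f8_pr.TimeExceedsSize

open Pool.Agent.Work.MP_dfc2f8_pr

theorem result (p : unitInterval) (hp0 : 0 < p) (hp1 : p < 1) (b : ℕ) (hb : 1 ≤ b) (K : ℕ) :
    Filter.Tendsto
      (fun n : ℕ => SimpleGraph.binomialRandom (Fin n) p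
        {G : SimpleGraph (Fin n) | sMB G b + (K : ℕ∞) < gammaMB G b})
      Filter.atTop (nhds 1) :=
  main p hp0 hp1 b hb K

end Pool.Agent.Results.MP_dfc2f8_pr.TimeExceedsSize
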